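import Pool.Agent.H29.FX.Targets

/-!
# The parameters (row NUM)
-/

set_option autoImplicit false

open Finset MvPolynomial

namespace Pool.Agent.H95.TFX

open Pool.Agent.H29.FX

theorem pf_NUM : T_NUM := by
  intro n δ c hδ hδ1 hc hcn
  have hn1 : (0 : ℝ) < 8 * (n + 1) := by positivity
  have hcn' : c * (8 * (n + 1)) ≤ δ := by rwa [le_div_iff₀ hn1] at hcn
  have hn0 : (0 : ℝ) ≤ n := Nat.cast_nonneg n
  have hc8 : 8 * c ≤ δ := by nlinarith [mul_nonneg hc.le hn0]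
  have hcn2 : 2 * c * n ≤ δ / 4 := by nlinarith [mul_nonneg hc.le hn0]
  have h1 : ∀ᶠ Y : ℝ in Filter.atTop, (2 : ℝ) ≤ Y ^ (2 * c) :=
    (tendsto_rpow_atTop (by positivity)).eventually_ge_atTop 2
  have h2 : ∀ᶠ Y : ℝ in Filter.atTop, 5 / δ ≤ Real.log Y :=
    Real.tendsto_log_atTop.eventually_ge_atTop _
  have h3 : ∀ᶠ Y : ℝ in Filter.atTop, (1 + n + 9 * (n : ℝ) ^ 2) ≤ Y ^ (δ / 4) :=
    (tendsto_rpow_atTop (by positivity)).eventually_ge_atTop _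
  obtain ⟨Y₁, hY₁⟩ := Filter.eventually_atTop.1 (h1.and (h2.and h3))
  refine ⟨max 2 Y₁, le_max_left _ _, fun Y hY => ?_⟩
  have hY2 : 2 ≤ Y := (le_max_left _ _).trans hY
  have hY0 : 0 < Y := by linarith
  have hY1 : 1 ≤ Y := by linarith
  obtain ⟨g1, g2, g3⟩ := hY₁ Y ((le_max_right _ _).trans hY)
  have hf : ((⌊Y ^ (2 * c)⌋₊ : ℕ) : ℝ) ≤ Y ^ (2 * c) := Nat.floor_le (by positivity)
  have hf0 : (0 : ℝ) ≤ ((⌊Y ^ (2 * c)⌋₊ : ℕ) : ℝ) := Nat.cast_nonneg _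
  have hflow : Y ^ (2 * c) - 1 < ((⌊Y ^ (2 * c)⌋₊ : ℕ) : ℝ) := Nat.sub_one_lt_floor _
  refine ⟨hf.trans (Real.rpow_le_rpow_of_exponent_le hY1 (by linarith)), ?_, ?_⟩
  · have e1 : Real.exp (Y ^ c) ^ 2 = Real.exp (2 * Y ^ c) := by
      rw [← Real.exp_nat_mul]
      norm_num
    have e2 : (Y ^ δ) ^ ⌊Y ^ (2 * c)⌋₊ =
        Real.exp (Real.log Y * δ * ((⌊Y ^ (2 * c)⌋₊ : ℕ) : ℝ)) := by
      rw [← Real.rpow_natCast, ← Real.rpow_mul hY0.le, Real.rpow_def_of_pos hY0]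
      congr 1
      ring
    rw [e1, e2, Real.exp_lt_exp]
    have hYc : 1 ≤ Y ^ c := Real.one_le_rpow hY1 hc.le
    have h2c : Y ^ (2 * c) = Y ^ c * Y ^ c := by
      rw [← Real.rpow_add hY0]
      congr 1
      ring
    have hlog : 5 ≤ Real.log Y * δ := by
      rw [div_le_iff₀ hδ] at g2
      exact g2
    have hhalf : Y ^ c * Y ^ c / 2 ≤ ((⌊Y ^ (2 * c)⌋₊ : ℕ) : ℝ) := by
      rw [h2c] at g1 hflow ⊢
      linarith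
    calc 2 * Y ^ c < 5 * (Y ^ c * Y ^ c / 2) := by nlinarith
      _ ≤ Real.log Y * δ * ((⌊Y ^ (2 * c)⌋₊ : ℕ) : ℝ) :=
          mul_le_mul hlog hhalf (by positivity) (by linarith)
  · have hYd : 1 ≤ Y ^ (δ / 4) := Real.one_le_rpow hY1 (by positivity)
    have hp : ((⌊Y ^ (2 * c)⌋₊ : ℕ) : ℝ) ^ n ≤ Y ^ (δ / 4) := by
      calc ((⌊Y ^ (2 * c)⌋₊ : ℕ) : ℝ) ^ n ≤ (Y ^ (2 * c)) ^ n := pow_le_pow_left₀ hf0 hf n
        _ = Y ^ (2 * c * n) := by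
            rw [← Real.rpow_natCast, ← Real.rpow_mul hY0.le]
        _ ≤ Y ^ (δ / 4) := Real.rpow_le_rpow_of_exponent_le hY1 hcn2
    have hd2 : Y ^ (δ / 2) = Y ^ (δ / 4) * Y ^ (δ / 4) := by
      rw [← Real.rpow_add hY0]
      congr 1
      ring
    rw [hd2]
    have h5 : (n : ℝ) * n * ((⌊Y ^ (2 * c)⌋₊ : ℕ) : ℝ) ^ n ≤ n * n * Y ^ (δ / 4) :=
      mul_le_mul_of_nonneg_left hp (by positivity)
    have h6 : (1 + n : ℝ) ≤ (1 + n) * Y ^ (δ / 4) := le_mul_of_one_le_right (by positivity) hYd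
    calc 1 + (n : ℝ) * (1 + 9 * n * ((⌊Y ^ (2 * c)⌋₊ : ℕ) : ℝ) ^ n)
        = 1 + n + 9 * (n * n * ((⌊Y ^ (2 * c)⌋₊ : ℕ) : ℝ) ^ n) := by ring
      _ ≤ (1 + n) * Y ^ (δ / 4) + 9 * (n * n * Y ^ (δ / 4)) := by linarith
      _ = (1 + n + 9 * (n : ℝ) ^ 2) * Y ^ (δ / 4) := by ring
      _ ≤ Y ^ (δ / 4) * Y ^ (δ / 4) := mul_le_mul_of_nonneg_right g3 (by positivity)

end Pool.Agent.H95.TFX
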